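import Pool.Agent.X206.TU.F

set_option autoImplicit false

/-!
The sharp Turán type inequality for the second derivative in odd degree `n = 2m+1 ≥ 7`: the polynomial
`(1-x)^m (1+x)^(m+1)` is extremal, and up to reflection and a constant factor it is the only one.
-/

namespace Pool.Agent.Results.MP_d240f8_an.OddDegree

open Polynomial

/-- the maximum norm on `[-1, 1]` -/
noncomputable def supNorm (P : ℝ[X]) : ℝ := sSup ((fun x : ℝ => |P.eval x|) '' Set.Icc (-1) 1)

/-- real polynomials of degree exactly `n` all of whose `n` zeros (with multiplicity) lie in `[-1, 1]` -/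
def Cls (n : ℕ) (P : ℝ[X]) : Prop :=
  P.natDegree = n ∧ Multiset.card P.roots = n ∧ ∀ r ∈ P.roots, -1 ≤ r ∧ r ≤ 1

/-- the best constant in `‖P''‖ ≥ C ‖P‖` on the class -/
noncomputable def best (n : ℕ) : ℝ :=
  sInf {c : ℝ | ∃ P : ℝ[X], Cls n P ∧ c = supNorm (derivative (derivative P)) / supNorm P}

/-- the candidate `(1-x)^m (1+x)^(m+1)` -/
noncomputable def Q (m : ℕ) : ℝ[X] := (1 - X) ^ m * (1 + X) ^ (m + 1)

theorem result (m : ℕ) (hm : 3 ≤ m) :
    best (2 * m + 1) = supNorm (derivative (derivative (Q m))) / supNorm (Q m) ∧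
    (∀ P : ℝ[X], Cls (2 * m + 1) P →
      (supNorm (derivative (derivative P)) = best (2 * m + 1) * supNorm P ↔
        ∃ a : ℝ, a ≠ 0 ∧ (P = C a * Q m ∨ P = C a * (Q m).comp (-X)))) ∧
    (2 * (m : ℝ) + 1) ^ 3 / ((2 * (m : ℝ) + 1) ^ 2 - 1) ≤ best (2 * m + 1) ∧
    best (2 * m + 1) ≤
      (2 * (m : ℝ) + 1) ^ 3 / ((2 * (m : ℝ) + 1) ^ 2 - 1) * Real.exp (2 / ((m : ℝ) ^ 2 * (m + 1))) := by
  obtain ⟨k, rfl⟩ : ∃ k, m = k + 2 := ⟨m - 2, by omega⟩
  have hk : 1 ≤ k := by omega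
  have hkr : (1 : ℝ) ≤ k := by exact_mod_cast hk
  obtain ⟨y1, hy0, hy1, hW1, hW2, hmax⟩ := X206.TU.exists_max hk
  have hnorm : ∀ P : ℝ[X], supNorm P = X206.TU.nrm P := fun _ => rfl
  have hdeg : 2 * (k + 2) + 1 = 2 * k + 5 := by ring
  simp only [hnorm, hdeg]
  set κ := X206.TU.KK k * (-X206.TU.EE k y1) with hκ
  have hκpos : 0 < κ := mul_pos (X206.TU.KK_pos k) (by linarith)
  -- the candidate
  have hQ : Q (k + 2) = C ((-1) ^ (k + 2)) * X206.TU.mk (X206.TU.qs k) := by
    unfold Q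
    rw [X206.TU.mk_qs, C_pow, C_neg, C_1]
    have : (1 - X : ℝ[X]) = (-1) * (X - 1) := by ring
    rw [this, mul_pow]
    ring
  have hcand : ∀ a : ℝ, a ≠ 0 → 0 < X206.TU.nrm (C a * Q (k + 2)) ∧
      X206.TU.nrm (derivative (derivative (C a * Q (k + 2)))) = κ * X206.TU.nrm (C a * Q (k + 2)) := by
    intro a ha
    rw [hQ, ← mul_assoc, ← C_mul]
    exact X206.TU.candidate (mul_ne_zero ha (pow_ne_zero _ (by norm_num))) hy0 hy1 hW1 hmax
  have hcand1 := hcand 1 one_ne_zero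
  rw [C_1, one_mul] at hcand1
  have hratio : X206.TU.nrm (derivative (derivative (Q (k + 2)))) / X206.TU.nrm (Q (k + 2)) = κ := by
    rw [hcand1.2]; field_simp [hcand1.1.ne']
  -- normal form
  have hform : ∀ P : ℝ[X], Cls (2 * k + 5) P → P = C P.leadingCoeff * X206.TU.mk P.roots ∧ P.leadingCoeff ≠ 0 := by
    intro P hP
    have h1 := C_leadingCoeff_mul_prod_multiset_X_sub_C (p := P) (by rw [hP.1, hP.2.1])
    refine ⟨h1.symm, ?_⟩
    intro h
    rw [leadingCoeff_eq_zero] at h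
    have := hP.1
    rw [h, natDegree_zero] at this
    omega
  have hmain : ∀ P : ℝ[X], Cls (2 * k + 5) P →
      κ * X206.TU.nrm P ≤ X206.TU.nrm (derivative (derivative P)) ∧
      (X206.TU.nrm (derivative (derivative P)) ≤ κ * X206.TU.nrm P →
        ∃ a : ℝ, a ≠ 0 ∧ (P = C a * Q (k + 2) ∨ P = C a * (Q (k + 2)).comp (-X))) := by
    intro P hP
    obtain ⟨h1, h2⟩ := hform P hP
    have h3 := X206.TU.main_ineq hk h2 hP.2.1 hP.2.2 hy0 hy1 hW1 hW2
    rw [← h1] at h3
    refine ⟨h3.1, fun h4 => ?_⟩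
    have hsq : ((-1 : ℝ)) ^ (k + 2) * (-1) ^ (k + 2) = 1 := by rw [← mul_pow]; norm_num
    rcases h3.2 h4 with h5 | h5
    · refine ⟨P.leadingCoeff * (-1) ^ (k + 2), mul_ne_zero h2 (pow_ne_zero _ (by norm_num)), Or.inl ?_⟩
      rw [hQ, ← mul_assoc, ← C_mul, mul_assoc, hsq, mul_one]
      conv_lhs => rw [h1, h5]
      rfl
    · refine ⟨P.leadingCoeff * (-1) ^ (k + 3), mul_ne_zero h2 (pow_ne_zero _ (by norm_num)), Or.inr ?_⟩
      have hsq3 : ((-1 : ℝ)) ^ (k + 3) * (-1) ^ (k + 3) = 1 := by rw [← mul_pow]; norm_num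
      have e1 : X206.TU.mk P.roots = (X - 1) ^ (k + 3) * (X + 1) ^ (k + 2) := by
        rw [h5]
        unfold X206.TU.mk
        rw [Multiset.map_add, Multiset.prod_add, Multiset.map_replicate, Multiset.map_replicate,
          Multiset.prod_replicate, Multiset.prod_replicate]
        simp
      have e2 : (Q (k + 2)).comp (-X) = C ((-1) ^ (k + 3)) * ((X - 1) ^ (k + 3) * (X + 1) ^ (k + 2)) := by
        unfold Q
        rw [mul_comp, pow_comp, pow_comp, sub_comp, add_comp, one_comp, X_comp]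
        have : (1 + -X : ℝ[X]) = C (-1) * (X - 1) := by rw [C_neg, C_1]; ring
        rw [this, mul_pow, C_pow]
        ring
      rw [e2, ← e1, ← mul_assoc, ← C_mul, mul_assoc, hsq3, mul_one]
      exact h1
  have hpos : ∀ P : ℝ[X], P ≠ 0 → 0 < X206.TU.nrm P := by
    intro P hP
    rcases (X206.TU.nrm_nonneg P).eq_or_lt with h | h
    · exfalso
      refine hP (Polynomial.eq_zero_of_infinite_isRoot P
        ((Set.Icc_infinite (show (-1 : ℝ) < 1 by norm_num)).mono ?_))
      intro y hy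
      have := (X206.TU.nrm_spec P).1 y hy.1 hy.2
      rw [← h] at this
      exact abs_nonpos_iff.1 this
    · exact h
  have hQcls : Cls (2 * k + 5) (Q (k + 2)) := by
    have hne : ((-1 : ℝ)) ^ (k + 2) ≠ 0 := pow_ne_zero _ (by norm_num)
    have hr : (Q (k + 2)).roots = X206.TU.qs k := by
      rw [hQ, roots_C_mul _ hne]
      exact roots_multiset_prod_X_sub_C _
    have hc : Multiset.card (X206.TU.qs k) = 2 * k + 5 := by
      unfold X206.TU.qs
      rw [Multiset.card_add, Multiset.card_replicate, Multiset.card_replicate]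
      ring
    refine ⟨?_, by rw [hr, hc], fun r hr' => ?_⟩
    · rw [hQ, natDegree_C_mul hne, ← hc]
      exact natDegree_multiset_prod_X_sub_C_eq_card _
    · rw [hr] at hr'
      rcases Multiset.mem_add.1 hr' with h | h
      · rw [Multiset.eq_of_mem_replicate h]; norm_num
      · rw [Multiset.eq_of_mem_replicate h]; norm_num
  have hbest : best (2 * k + 5) = κ := by
    unfold best
    refine IsLeast.csInf_eq ⟨⟨Q (k + 2), hQcls, hratio.symm⟩, ?_⟩
    rintro c ⟨P, hP, rfl⟩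
    have hP0 : P ≠ 0 := by
      rintro rfl
      have := hP.1
      rw [natDegree_zero] at this
      omega
    have h1 := hpos P hP0
    rw [hnorm, hnorm, le_div_iff₀ h1]
    exact (hmain P hP).1
  rw [hbest]
  have hKK : X206.TU.KK k = (2 * ((k + 2 : ℕ) : ℝ) + 1) ^ 3 / ((2 * ((k + 2 : ℕ) : ℝ) + 1) ^ 2 - 1) := by
    unfold X206.TU.KK
    push_cast
    congr 1 <;> ring
  refine ⟨hratio.symm, fun P hP => ⟨fun h => (hmain P hP).2 h.le, ?_⟩, ?_, ?_⟩
  · rintro ⟨a, ha, h | h⟩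
    · rw [h]; exact (hcand a ha).2
    · have h' : P = (C a * Q (k + 2)).comp (-X) := by rw [h, mul_comp, C_comp]
      rw [h', X206.TU.nrm_neg, X206.TU.dd_neg, X206.TU.nrm_neg]
      exact (hcand a ha).2
  · rw [← hKK, hκ]
    nlinarith [X206.TU.KK_pos k]
  · rw [← hKK, hκ]
    refine mul_le_mul_of_nonneg_left ?_ (X206.TU.KK_pos k).le
    refine hW2.trans (le_of_eq ?_)
    push_cast
    congr 2
    ring

end Pool.Agent.Results.MP_d240f8_an.OddDegree
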